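import Pool.Agent.Q45.ML.Lat

/-!
# Critical values of motives with coefficients in `E`: all embeddings at once

Let `M` be a motive over `ℚ` with coefficients in a number field `E`, pure of weight `w`, `P p ∈ E[X]` the
polynomial `det(1 - Frob_p X | M_λ^{I_p})`, and for every embedding `τ : E → ℂ` let `α τ p j` be the reciprocal roots
of `τ(P p)` (padded by zeros), `|α τ p j| ≤ p^{w/2}`, and `L τ` the `τ`-component of the `L`-function, analytic at
the integer `m`. For `γ > π/2` put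

`S_τ(T) = ∑_p ∑_{k ≥ 1} (τ(tr(Frob_p^k)) / (k p^{mk})) e^{iγ k log p/T} / Γ(1 + k log p/T)`.

Then `exp S_τ(T) = L_τ(m) + O(1/T)` for all `τ`, and Deligne's relation `L_τ(m) = τ(e) Ω_τ` for all `τ`, `e ∈ E`,
is equivalent to: for some integer `D ≥ 1`, the vectors `(D exp S_τ(T)/Ω_τ)_τ` approach the lattice `𝓞_E` of
`ℂ^{Hom(E, ℂ)}` along one sequence `T → ∞`.
-/

set_option autoImplicit false

namespace Pool.Agent.Results.MP_100fe7_nt.IntegerLatticeCriterion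

open Filter Topology Asymptotics Polynomial Pool.Agent.Q45.ML NumberField

/-- the term at `(p, k)`, `k = z.2 + 1`: `(∑_j α p j^k / (k p^{mk})) e^{iγ k log p/T} / Γ(1 + k log p/T)` -/
noncomputable def term {n : ℕ} (α : Nat.Primes → Fin n → ℂ) (m : ℤ) (γ T : ℝ) (z : Nat.Primes × ℕ) : ℂ :=
  (∑ j, α z.1 j ^ (z.2 + 1)) / ((z.2 + 1) * (z.1 : ℂ) ^ (m * (z.2 + 1 : ℕ))) *
    (Complex.exp ((γ * ((z.2 + 1) * Real.log (z.1 : ℝ) / T) : ℝ) * Complex.I) /
      (Real.Gamma (1 + (z.2 + 1) * Real.log (z.1 : ℝ) / T) : ℂ))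

/-- the smoothed sum -/
noncomputable def S {n : ℕ} (α : Nat.Primes → Fin n → ℂ) (m : ℤ) (γ T : ℝ) : ℂ := ∑' z, term α m γ T z

/-- the distance (supremum norm) of a vector of `ℂ^{Hom(E, ℂ)}` from the lattice of algebraic integers -/
noncomputable def distLattice (E : Type) [Field E] [NumberField E] (x : (E →+* ℂ) → ℂ) : ℝ :=
  Metric.infDist x (Set.range fun (a : 𝓞 E) (τ : E →+* ℂ) => τ a)

theorem term_eq {n : ℕ} (α : Nat.Primes → Fin n → ℂ) (m : ℤ) (γ T : ℝ) (z : Nat.Primes × ℕ) :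
    term α m γ T z = sterm (fun p : Nat.Primes => (p : ℝ)) α m γ T z := by
  unfold term sterm
  congr 3
  have e : ((((z.2 : ℝ) + 1) * (m : ℝ) : ℝ) : ℂ) = ((m * (z.2 + 1 : ℕ) : ℤ) : ℂ) := by
    push_cast; ring
  rw [e, Complex.cpow_intCast]
  push_cast
  rfl

theorem lattice_eq (E : Type) [Field E] [NumberField E] :
    (Set.range fun (a : 𝓞 E) (τ : E →+* ℂ) => τ a) =
      (canonicalEmbedding.integerLattice E : Set ((E →+* ℂ) → ℂ)) := by
  ext x
  constructor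
  · rintro ⟨a, rfl⟩
    exact ⟨(a : E), ⟨a, rfl⟩, rfl⟩
  · rintro ⟨_, ⟨a, rfl⟩, rfl⟩
    exact ⟨a, rfl⟩

theorem closed_lattice (E : Type) [Field E] [NumberField E] :
    IsClosed (Set.range fun (a : 𝓞 E) (τ : E →+* ℂ) => τ a) := by
  rw [lattice_eq]
  set K : Set ((E →+* ℂ) → ℂ) := (canonicalEmbedding.integerLattice E : Set ((E →+* ℂ) → ℂ)) with hK
  refine isClosed_of_closure_subset fun x hx => ?_
  have hA := canonicalEmbedding.integerLattice.inter_ball_finite E (‖x‖ + 1)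
  by_contra hxK
  have hxA : x ∈ (K ∩ Metric.closedBall 0 (‖x‖ + 1))ᶜ := fun h => hxK h.1
  obtain ⟨ε, hε, hball⟩ := Metric.isOpen_iff.1 hA.isClosed.isOpen_compl x hxA
  obtain ⟨y, hy, hd⟩ := Metric.mem_closure_iff.1 hx (min ε 1) (lt_min hε one_pos)
  refine hball (a := y) ?_ ⟨hy, ?_⟩
  · rw [Metric.mem_ball, dist_comm]
    exact hd.trans_le (min_le_left _ _)
  · rw [Metric.mem_closedBall, dist_zero_right]
    have h1 : dist x y < 1 := hd.trans_le (min_le_right _ _)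
    have h2 : ‖y‖ ≤ ‖x‖ + ‖y - x‖ := by
      have := norm_add_le x (y - x)
      simpa using this
    rw [dist_comm, dist_eq_norm] at h1
    linarith

theorem eval_prod' {n : ℕ} {E : Type} [Field E] {Q : E[X]} {τ : E →+* ℂ} {β : Fin n → ℂ}
    (h : Q.map τ = ∏ j, (1 - C (β j) * X)) (x : ℂ) : eval₂ τ x Q = ∏ j, (1 - β j * x) := by
  rw [eval₂_eq_eval_map, h, eval_prod]
  simp

/-- a positive integer multiple of an algebraic number is an algebraic integer -/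
theorem clear_denominator {E : Type} [Field E] [NumberField E] (e : E) :
    ∃ D : ℕ, 0 < D ∧ ∃ a : 𝓞 E, (D : E) * e = a := by
  have h1 : IsAlgebraic ℤ e := (IsFractionRing.isAlgebraic_iff ℤ ℚ E).2
    (Algebra.IsAlgebraic.isAlgebraic e)
  obtain ⟨y, hy, hi⟩ := h1.exists_integral_multiple
  refine ⟨y.natAbs, Int.natAbs_pos.2 hy, ?_⟩
  have h2 : IsIntegral ℤ ((y.natAbs : E) * e) := by
    have e1 : (y.natAbs : E) = ((y.natAbs : ℤ) : E) := (Int.cast_natCast _).symm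
    rcases Int.natAbs_eq y with h | h
    · rw [e1, ← h]
      simpa [zsmul_eq_mul] using hi
    · have h3 : ((y.natAbs : ℤ) : E) * e = -(y • e) := by
        rw [zsmul_eq_mul]
        have h4 : (y : E) = -((y.natAbs : ℤ) : E) := by
          conv_lhs => rw [h]
          push_cast
          rfl
        rw [h4]
        ring
      rw [e1, h3]
      exact hi.neg
  exact ⟨⟨_, h2⟩, rfl⟩

theorem result (E : Type) [Field E] [NumberField E] {n : ℕ} {w : ℤ} (P : Nat.Primes → E[X])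
    (α : (E →+* ℂ) → Nat.Primes → Fin n → ℂ)
    (hP : ∀ τ p, (P p).map τ = ∏ j, (1 - C (α τ p j) * X))
    (hα : ∀ τ p j, ‖α τ p j‖ ≤ (p : ℝ) ^ ((w : ℝ) / 2))
    (L : (E →+* ℂ) → ℂ → ℂ) (hmer : ∀ τ, ∀ σ : ℝ, MeromorphicAt (L τ) (σ : ℂ))
    (hL : ∀ τ, ∀ s : ℂ, (w : ℝ) / 2 + 1 < s.re →
      HasProd (fun p : Nat.Primes => (eval₂ τ ((p : ℂ) ^ (-s)) (P p))⁻¹) (L τ s))
    (m : ℤ) (hm : ∀ τ, AnalyticAt ℂ (L τ) m) (Ω : (E →+* ℂ) → ℂ) (hΩ : ∀ τ, Ω τ ≠ 0)
    {γ : ℝ} (hγ : Real.pi / 2 < γ) :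
    (∀ τ, ∀ T : ℝ, 0 < T → Summable fun z => ‖term (α τ) m γ T z‖) ∧
    (∀ τ, (fun T : ℝ => Complex.exp (S (α τ) m γ T) - L τ m) =O[atTop] (fun T : ℝ => 1 / T)) ∧
    (∀ D : ℕ, 0 < D → List.TFAE [
      ∃ a : 𝓞 E, ∀ τ : E →+* ℂ, D * (L τ m / Ω τ) = τ a,
      Tendsto (fun T : ℝ => distLattice E fun τ => D * (Complex.exp (S (α τ) m γ T) / Ω τ)) atTop (𝓝 0),
      ∃ t : ℕ → ℝ, Tendsto t atTop atTop ∧ Tendsto
        (fun i => distLattice E fun τ => D * (Complex.exp (S (α τ) m γ (t i)) / Ω τ)) atTop (𝓝 0)]) ∧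
    ((∃ e : E, ∀ τ : E →+* ℂ, L τ m = τ e * Ω τ) ↔ ∃ D : ℕ, 0 < D ∧
      ∃ t : ℕ → ℝ, Tendsto t atTop atTop ∧ Tendsto
        (fun i => distLattice E fun τ => D * (Complex.exp (S (α τ) m γ (t i)) / Ω τ)) atTop (𝓝 0)) := by
  set θ : ℝ := max ((w : ℝ) / 2) m with hθ
  have hθ1 : (w : ℝ) / 2 ≤ θ := le_max_left _ _
  have hθ0 : (m : ℝ) ≤ θ := le_max_right _ _
  have hE : ∀ τ, Eul n (fun p : Nat.Primes => (p : ℝ)) (α τ) θ 1 := fun τ =>
    eul_q fun p j => max_bound p (hα τ p j) m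
  have hS : ∀ τ T, smooth (fun p : Nat.Primes => (p : ℝ)) (α τ) m γ T = S (α τ) m γ T := by
    intro τ T
    unfold smooth S
    simp only [term_eq]
  have hval : ∀ τ, (fun T : ℝ => Complex.exp (S (α τ) m γ T) - L τ m) =O[atTop]
      (fun T : ℝ => 1 / T) := by
    intro τ
    have h1 := (hE τ).value (F := L τ) (s₀ := m) (by linarith) (fun x _ _ => hmer τ x)
      (fun s hs => by
        refine (hL τ s (by linarith)).congr_fun fun p => ?_
        rw [eval_prod' (hP τ p), Finset.prod_inv_distrib]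
        simp) (by simpa using hm τ) hγ
    simp only [hS, Complex.ofReal_intCast] at h1
    exact h1
  have hlim : ∀ D : ℕ, Tendsto (fun T : ℝ => fun τ : E →+* ℂ =>
      (D : ℂ) * (Complex.exp (S (α τ) m γ T) / Ω τ)) atTop (𝓝 fun τ => D * (L τ m / Ω τ)) :=
    fun D => tendsto_pi_nhds.2 fun τ => ((tendsto_of_rate (hval τ)).div_const _).const_mul _
  have htfae : ∀ D : ℕ, 0 < D → List.TFAE [
      ∃ a : 𝓞 E, ∀ τ : E →+* ℂ, D * (L τ m / Ω τ) = τ a,
      Tendsto (fun T : ℝ => distLattice E fun τ => D * (Complex.exp (S (α τ) m γ T) / Ω τ)) atTop (𝓝 0),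
      ∃ t : ℕ → ℝ, Tendsto t atTop atTop ∧ Tendsto
        (fun i => distLattice E fun τ => D * (Complex.exp (S (α τ) m γ (t i)) / Ω τ)) atTop (𝓝 0)] := by
    intro D _
    have h1 := closed_tfae (closed_lattice E) (Set.range_nonempty _) (hlim D)
    have e : ((fun τ : E →+* ℂ => (D : ℂ) * (L τ m / Ω τ)) ∈
        Set.range fun (a : 𝓞 E) (τ : E →+* ℂ) => τ a) ↔
        ∃ a : 𝓞 E, ∀ τ : E →+* ℂ, D * (L τ m / Ω τ) = τ a := by
      constructor
      · rintro ⟨a, ha⟩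
        exact ⟨a, fun τ => (congrFun ha τ).symm⟩
      · rintro ⟨a, ha⟩
        exact ⟨a, funext fun τ => (ha τ).symm⟩
    rw [e] at h1
    exact h1
  refine ⟨fun τ T hT => ?_, hval, htfae, ?_⟩
  · simp only [term_eq]
    exact (hE τ).sterm_summable m γ hT
  · constructor
    · rintro ⟨e, he⟩
      obtain ⟨D, hD, a, ha⟩ := clear_denominator e
      refine ⟨D, hD, ?_⟩
      have hiff : (∃ a : 𝓞 E, ∀ τ : E →+* ℂ, (D : ℂ) * (L τ m / Ω τ) = τ a) ↔
          ∃ t : ℕ → ℝ, Tendsto t atTop atTop ∧ Tendsto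
            (fun i => distLattice E fun τ => D * (Complex.exp (S (α τ) m γ (t i)) / Ω τ)) atTop (𝓝 0) :=
        (htfae D hD).out 0 2
      refine hiff.1 ⟨a, fun τ => ?_⟩
      rw [he τ, mul_div_cancel_right₀ _ (hΩ τ), ← ha, map_mul, map_natCast]
    · rintro ⟨D, hD, ht⟩
      have hiff : (∃ a : 𝓞 E, ∀ τ : E →+* ℂ, (D : ℂ) * (L τ m / Ω τ) = τ a) ↔
          ∃ t : ℕ → ℝ, Tendsto t atTop atTop ∧ Tendsto
            (fun i => distLattice E fun τ => D * (Complex.exp (S (α τ) m γ (t i)) / Ω τ)) atTop (𝓝 0) :=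
        (htfae D hD).out 0 2
      obtain ⟨a, ha⟩ := hiff.2 ht
      refine ⟨(a : E) / D, fun τ => ?_⟩
      have hDc : (D : ℂ) ≠ 0 := by exact_mod_cast hD.ne'
      have h1 := ha τ
      have h2 := hΩ τ
      rw [map_div₀, map_natCast]
      field_simp at h1 ⊢
      linear_combination h1

end Pool.Agent.Results.MP_100fe7_nt.IntegerLatticeCriterion
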