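import Pool.Agent.Q317.ST.Perm3
import Pool.Agent.Q317.ST.Pad

/-!
# The rank formula and real places

`Ω` is an algebraic closure of `ℚ`, number fields are the finite extensions of `ℚ` in `Ω`. For an
elliptic curve `E` over a number field `k` and a number field `K ⊇ k` let `ord K` be the order of
vanishing of `L(E/K, s)` at `s = 1` and `rk K` the rank of `E(K)`. Both functions of `K` respect the
relations between permutation characters of the Galois group over `k` (`Respects`).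
-/

set_option autoImplicit false

namespace Pool.Agent.Results.MP_ae0bd0_nt.RealPlaces

open IntermediateField Pool.Agent.Q317.ST Pool.Agent.Q317.ST.Perm

attribute [-instance] DivisionRing.toRatAlgebra

variable {Ω : Type} [Field Ω] [Algebra ℚ Ω]

/-- `F` is a number field containing `k` that has no embedding in `ℝ` and, for the primes `p ≤ n`,
no embedding in `ℚ_p`. -/
def NoSmallPlaces (k : IntermediateField ℚ Ω) (n : ℕ) (F : IntermediateField ℚ Ω) : Prop :=
  FiniteDimensional ℚ F ∧ k ≤ F ∧ IsEmpty (F →+* ℝ) ∧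
    ∀ (p : ℕ) [Fact p.Prime], p ≤ n → IsEmpty (F →+* ℚ_[p])

theorem realOver_unique {k K : IntermediateField ℚ Ω} (hkK : k ≤ K) {v : k →+* ℝ}
    (hv : ∀ w : k →+* ℝ, w = v) : realOver k K v = Nat.card (K →+* ℝ) := by
  unfold realOver
  refine Nat.card_congr (Equiv.subtypeUnivEquiv fun ρ x hx => ?_)
  exact congrArg (fun t : k →+* ℝ => t ⟨x, hx⟩) (hv (ρ.comp (inclusion hkK).toRingHom))

theorem realOver_empty {k K : IntermediateField ℚ Ω} (h : IsEmpty (K →+* ℝ)) (v : k →+* ℝ) :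
    realOver k K v = 0 := by
  unfold realOver
  have : IsEmpty {ρ : K →+* ℝ // ∀ (x : K) (hx : (x : Ω) ∈ k), ρ x = v ⟨x, hx⟩} :=
    ⟨fun ρ => h.false ρ.1⟩
  exact Nat.card_of_isEmpty

theorem finsum_unique {k : IntermediateField ℚ Ω} {v : k →+* ℝ} (hv : ∀ w : k →+* ℝ, w = v)
    (g : (k →+* ℝ) → ℚ) : ∑ᶠ w, g w = g v := by
  rw [finsum_eq_single g v fun w hw => absurd (hv w) hw]

theorem result (Ω : Type) [Field Ω] [Algebra ℚ Ω] [IsAlgClosure ℚ Ω] (k : IntermediateField ℚ Ω)
    [FiniteDimensional ℚ k] (ord rk : IntermediateField ℚ Ω → ℤ) (hord : Respects k ord)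
    (hrk : Respects k rk) (n : ℕ) (h : ∀ F, NoSmallPlaces k n F → ord F = rk F) :
    (∃ lam : (k →+* ℝ) → ℚ, ∀ K : IntermediateField ℚ Ω, FiniteDimensional ℚ K → k ≤ K →
      (ord K : ℚ) - rk K = ∑ᶠ v, lam v * (realOver k K v : ℚ)) ∧
    (∀ K : IntermediateField ℚ Ω, FiniteDimensional ℚ K → k ≤ K → IsEmpty (K →+* ℝ) →
      ord K = rk K) ∧
    (Nat.card (k →+* ℝ) = 1 → ∀ K : IntermediateField ℚ Ω, FiniteDimensional ℚ K → k ≤ K →
      ord K - rk K = Nat.card (K →+* ℝ) * (ord k - rk k)) ∧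
    (∀ S : Set (IntermediateField ℚ Ω),
      (∀ F ∈ S, FiniteDimensional ℚ F ∧ k ≤ F ∧ ord F = rk F) →
      (∀ lam : (k →+* ℝ) → ℚ, (∀ F ∈ S, ∑ᶠ v, lam v * (realOver k F v : ℚ) = 0) → lam = 0) →
      ∀ K : IntermediateField ℚ Ω, FiniteDimensional ℚ K → k ≤ K → ord K = rk K) ∧
    (∀ v : k →+* ℝ, Respects k fun K => (realOver k K v : ℤ)) := by
  let J := {p : Fin (n + 1) // (p : ℕ).Prime}
  have i0 : ∀ j : J, Fact ((j.1 : ℕ).Prime) := fun j => ⟨j.2⟩
  let E : J → Type := fun j => ℚ_[(j.1 : ℕ)]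
  have hE : ∀ j : J, CharZero (E j) := fun j => inferInstance
  have hnE : ∀ j : J, StarkNumbers.NonSq (E j) := fun j => exists_nonsq _
  have hf : Respects k fun K => ord K - rk K := by
    intro ι _ m K hK hrel
    have h1 := hord ι m K hK hrel
    have h2 := hrk ι m K hK hrel
    simp only [smul_sub, Finset.sum_sub_distrib]
    rw [h1, h2, sub_zero]
  obtain ⟨lam, hlam⟩ := exists_lam hf E hE hnE (by
    intro F hF hkF hR hj
    refine sub_eq_zero.2 (h F ⟨hF, hkF, hR, ?_⟩)
    intro p hp hpn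
    exact hj ⟨⟨p, by omega⟩, hp.out⟩)
  have hlam' : ∀ K : IntermediateField ℚ Ω, FiniteDimensional ℚ K → k ≤ K →
      (ord K : ℚ) - rk K = ∑ᶠ v, lam v * (realOver k K v : ℚ) := by
    intro K hK hk
    rw [← hlam K hK hk]
    push_cast
    rfl
  refine ⟨⟨lam, hlam'⟩, ?_, ?_, ?_, respects_real⟩
  · intro K hK hk hR
    have h1 := hlam' K hK hk
    simp only [realOver_empty hR, Nat.cast_zero, mul_zero, finsum_zero] at h1
    have h2 := sub_eq_zero.1 h1
    exact_mod_cast h2
  · intro hcard K hK hk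
    obtain ⟨hsub, ⟨v⟩⟩ := Nat.card_eq_one_iff_unique.1 hcard
    have hv : ∀ w : k →+* ℝ, w = v := fun w => Subsingleton.elim w v
    have h1 := hlam' K hK hk
    have h2 := hlam' k inferInstance le_rfl
    rw [finsum_unique hv, realOver_unique hk hv] at h1
    rw [finsum_unique hv, realOver_unique le_rfl hv, hcard, Nat.cast_one, mul_one] at h2
    have h3 : ((ord K - rk K : ℤ) : ℚ) = ((Nat.card (K →+* ℝ) * (ord k - rk k) : ℤ) : ℚ) := by
      push_cast
      rw [h1, h2, mul_comm]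
    exact_mod_cast h3
  · intro S hS hsp K hK hk
    have h0 : lam = 0 := hsp lam fun F hF => by
      obtain ⟨h1, h2, h3⟩ := hS F hF
      rw [← hlam' F h1 h2, h3, sub_self]
    have h1 := hlam' K hK hk
    simp only [h0, Pi.zero_apply, zero_mul, finsum_zero] at h1
    have h2 := sub_eq_zero.1 h1
    exact_mod_cast h2

end Pool.Agent.Results.MP_ae0bd0_nt.RealPlaces
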