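import Pool.Agent.Q5.MS.RieszLaw
import Pool.Agent.Results.MP_ae0bd0_nt.MeanProduct

/-!
# The product of Birch and Swinnerton-Dyer over number fields with an arbitrarily light smoothing

Let `K` be a number field, `E : y² = x³ + a x + b` an elliptic curve with `a, b ∈ 𝓞_K`, and let `F` be a
continuation of the `L`-series of `E/K` (product over the primes `v ∤ 6Δ`) to the half plane `Re s > 1`, analytic there
and at `s = 1`, with `|F(s)| ≤ C (1 + |s|)^κ (1 + 1/(Re s - 1))^κ` for `Re s > 1` (known for automorphic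
`L`-series; nothing is assumed on `F` to the left of the line `Re s = 1`, except near the point `1`). For `k > 0` let

`S_k(Y) = ∑_{Nv ≤ Y, v ∤ 6Δ} (1 - log Nv / log Y)^k log (#E(k_v)/Nv)`,

the logarithm of the original product of Birch and Swinnerton-Dyer with the Riesz smoothing of order `k`; for
`k → 0` it is the sharp cut-off. Then for every real `ρ`:

* `ord_{s=1} F = ρ` and `F` has no zeros with `Re s > 1`, if and only if `S_k(Y) ∼ ρ log log Y` (in the sense
  `S_k(Y)/log log Y → ρ`) for ONE `k > 0`, if and only if `S_k(Y) = ρ log log Y + O(1)` for ALL `k > 0`.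
* `ord_{s=1} F ≤ ρ` and `F` has no zeros with `Re s > 1`, if and only if `S_k(Y) ≤ (ρ + o(1)) log log Y` for ONE
  `k > 0`, if and only if `S_k(Y) ≤ ρ log log Y + O(1)` for ALL `k > 0`.

So the rank form of the conjecture of Birch and Swinnerton-Dyer together with the Riemann hypothesis for `E/K` is
equivalent to the expected growth of the smoothed product, and a one-sided bound with `ρ = rk E(K)` is already
equivalent to the Riemann hypothesis together with `ord_{s=1} F ≤ rk E(K)`.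

For `K = ℚ` this is `RieszLaw` of problem `MP_696deb_nt`. The proof for number fields is in
`Pool.Agent.Q5.MS`, based on `Pool.Agent.TH270.RS` (weighted sums over prime powers of a system of primes,
helper270) and `Pool.Agent.TH942.ES` (helper942).  New is the passage from the prime powers to the primes
(`Pool.Agent.Q5.MS.riesz_close`), which does not need a theorem of Rankin and Selberg.
-/

set_option autoImplicit false

namespace Pool.Agent.Results.MP_ae0bd0_nt.RieszProduct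

open Filter Topology Set Complex NumberField IsDedekindDomain
open Pool.Agent.Results.MP_ae0bd0_nt.MeanProduct (Good norm points trace factor upTo powerSum rank)

variable {K : Type} [Field K] [NumberField K]

/-- `S_k(Y) = ∑_{Nv ≤ Y} (1 - log Nv / log Y)^k log (#E(k_v)/Nv)`, `#E(k_v) = points + 1`, the (finite) sum over
the good primes `v` with `Nv ≤ Y`. -/
noncomputable def rieszSum (a b : 𝓞 K) (k Y : ℝ) : ℝ :=
  ∑ᶠ v ∈ upTo a b Y, (1 - Real.log (norm v) / Real.log Y) ^ k *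
    Real.log (((points a b v : ℝ) + 1) / norm v)

/-- `F` is a continuation of the `L`-series `∏_v factor v` (`Re s > 3/2`) to the half plane `Re s > 1`, analytic
there and at `1`, with `|F(s)| ≤ C (1 + |s|)^κ (1 + 1/(Re s - 1))^κ` for `Re s > 1`. -/
def Moderate (a b : 𝓞 K) (F : ℂ → ℂ) : Prop :=
  (∀ s : ℂ, 1 < s.re → DifferentiableAt ℂ F s) ∧ AnalyticAt ℂ F 1 ∧
  (∃ (C : ℝ) (κ : ℕ), ∀ s : ℂ, 1 < s.re →
    ‖F s‖ ≤ C * (1 + ‖s‖) ^ κ * (1 + 1 / (s.re - 1)) ^ κ) ∧
  ∀ s : ℂ, (3 : ℝ) / 2 < s.re →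
    HasProd (fun v : {v : HeightOneSpectrum (𝓞 K) // Good a b v} => factor a b v.1 s) (F s)

/-- `F` has no zeros with `Re s > 1`. -/
def NoZeros (F : ℂ → ℂ) : Prop := ∀ s : ℂ, 1 < s.re → F s ≠ 0

/-! ### translation -/

open Pool.Agent.Results.MP_ae0bd0_nt.MeanProduct (NN factor_eq real_sums zeros_shift)
open Pool.Agent.TH942.ES (GoodV alV curve_sys curve_cv zv xv Sys)
open Pool.Agent.TH942.RZ (rzw)
open Pool.Agent.TH270.RS (Lw)
open Pool.Agent.Q5.MS (Sv)

theorem riesz_eq (a b : 𝓞 K) {k Y : ℝ} (hY : 1 < Y) :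
    rieszSum a b k Y = Sv (NN a b) (alV a b) k Y := by
  classical
  have E := curve_sys a b
  have hfin : (upTo a b Y).Finite := by
    have h1 := (E.fin_le Y).image Subtype.val
    refine h1.subset fun v hv => ?_
    exact ⟨⟨v, hv.1⟩, hv.2, rfl⟩
  have h2 : rieszSum a b k Y = ∑ v ∈ hfin.toFinset, (1 - Real.log (norm v) / Real.log Y) ^ k *
      Real.log (((points a b v : ℝ) + 1) / norm v) :=
    finsum_mem_eq_finite_toFinset_sum _ hfin
  have h3 : Sv (NN a b) (alV a b) k Y = ∑ v ∈ (E.fin_le Y).toFinset,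
      rzw k (Real.log (NN a b v) / Real.log Y) * Pool.Agent.TH942.ES.cv (NN a b) (alV a b) v :=
    finsum_mem_eq_finite_toFinset_sum (fun v => rzw k (Real.log (NN a b v) / Real.log Y) *
      Pool.Agent.TH942.ES.cv (NN a b) (alV a b) v) (E.fin_le Y)
  rw [h2, h3]
  refine Finset.sum_bij' (i := fun v hv => ⟨v, ((Set.Finite.mem_toFinset _).1 hv).1⟩)
    (j := fun v _ => v.1) ?_ ?_ ?_ ?_ ?_
  · intro v hv
    rw [Set.Finite.mem_toFinset] at hv ⊢
    exact hv.2
  · intro v hv
    rw [Set.Finite.mem_toFinset] at hv ⊢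
    exact ⟨v.2, hv⟩
  · intro v hv
    rfl
  · intro v hv
    rfl
  · intro v hv
    have h4 := curve_cv (a := a) (b := b) ⟨v, ((Set.Finite.mem_toFinset _).1 hv).1⟩
    have h5 : (norm v : ℝ) ≤ Y := ((Set.Finite.mem_toFinset _).1 hv).2
    have h6 : (2 : ℝ) ≤ norm v := by exact_mod_cast Pool.Agent.H921R2.TatePole.two_le_nm v
    have h7 : Real.log (norm v) / Real.log Y ≤ 1 := by
      rw [div_le_one (Real.log_pos hY)]
      exact Real.log_le_log (by linarith) h5
    have h8 : rzw k (Real.log (norm v) / Real.log Y) =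
        (1 - Real.log (norm v) / Real.log Y) ^ k := by
      unfold rzw
      rw [max_eq_left (by linarith)]
    rw [← h8]
    exact congrArg (fun x => rzw k (Real.log (norm v) / Real.log Y) * x) h4.symm

/-- the data of the curve -/
theorem data {a b : 𝓞 K} {F : ℂ → ℂ} (hF : Moderate a b F) :
    (∃ m : ℕ, analyticOrderAt F 1 = m) ∧
    (∀ m : ℕ, analyticOrderAt F 1 = m → Lw (NN a b) (alV a b) (fun s => F (1 + s)) m) ∧
    ∃ (C : ℝ) (κ : ℕ), ∀ s : ℂ, 0 < s.re →
      ‖F (1 + s)‖ ≤ C * (1 + ‖s‖) ^ κ * (1 + 1 / s.re) ^ κ := by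
  obtain ⟨hd, h1, ⟨C, κ, hg⟩, hL⟩ := hF
  have E := curve_sys a b
  have hprod : ∀ s : ℂ, 1 / 2 < s.re →
      F (1 + s) = Pool.Agent.TH942.ES.LE (NN a b) (alV a b) s := by
    intro s hs
    have h1 := hL (1 + s) (by rw [Complex.add_re, Complex.one_re]; linarith)
    have h3 : (fun v : {v : HeightOneSpectrum (𝓞 K) // Good a b v} => factor a b v.1 (1 + s)) =
        fun v => ∏ i, (1 - zv (NN a b) (alV a b) v i * xv (NN a b) v s)⁻¹ := by
      funext v
      have h4 := factor_eq a b v (1 + s)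
      rwa [add_sub_cancel_left] at h4
    rw [h3] at h1
    exact h1.tprod_eq.symm
  have hana : ∀ s : ℂ, 1 < s.re → AnalyticAt ℂ F s := by
    intro s hs
    have hU : IsOpen {s : ℂ | 1 < s.re} := isOpen_lt continuous_const Complex.continuous_re
    exact (DifferentiableOn.analyticOnNhd (fun z hz => (hd z hz).differentiableWithinAt) hU) s hs
  refine ⟨?_, fun m hm => ?_, ?_⟩
  · have hfin : analyticOrderAt F 1 ≠ ⊤ := by
      intro htop
      rw [analyticOrderAt_eq_top] at htop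
      -- `F` vanishes in a ball around `1`
      obtain ⟨ε, hε, hball⟩ := Metric.eventually_nhds_iff_ball.1 htop
      have hU : IsOpen {s : ℂ | 1 < s.re} := isOpen_lt continuous_const Complex.continuous_re
      have hUc : Convex ℝ {s : ℂ | 1 < s.re} := convex_halfSpace_re_gt _
      have a1 : AnalyticOnNhd ℂ F {s : ℂ | 1 < s.re} := fun s hs => hana s hs
      set z₀ : ℂ := 1 + ((ε / 2 : ℝ) : ℂ) with hz₀
      have hz₀re : 1 < z₀.re := by
        rw [hz₀, Complex.add_re, Complex.one_re, Complex.ofReal_re]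
        linarith
      have hz₀b : z₀ ∈ Metric.ball (1 : ℂ) ε := by
        rw [Metric.mem_ball, dist_eq_norm, hz₀, add_sub_cancel_left, Complex.norm_real,
          Real.norm_eq_abs, abs_of_pos (half_pos hε)]
        linarith
      have h2 := a1.eqOn_of_preconnected_of_eventuallyEq (analyticOnNhd_const (v := (0 : ℂ)))
        hUc.isPreconnected (show z₀ ∈ {s : ℂ | 1 < s.re} from hz₀re) (by
          filter_upwards [Metric.isOpen_ball.mem_nhds hz₀b] with s hs
          exact hball s hs)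
      have h3 : F 2 = 0 := h2 (show (1 : ℝ) < (2 : ℂ).re by norm_num)
      have h4 := hprod 1 (by norm_num)
      have h5 := (E.LE_diff (s := 1) (by norm_num)).2
      rw [show (1 : ℂ) + 1 = 2 by norm_num, h3] at h4
      exact h5 h4.symm
    obtain ⟨p, hp⟩ := ENat.ne_top_iff_exists.1 hfin
    exact ⟨p, hp.symm⟩
  · have hga : AnalyticAt ℂ (fun z : ℂ => F (1 + z)) 0 := by
      have h2 : AnalyticAt ℂ (fun z : ℂ => 1 + z) 0 := by fun_prop
      exact AnalyticAt.comp (f := fun z : ℂ => 1 + z) (by simpa using h1) h2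
    refine ⟨E, real_sums a b, fun s hs => ?_, hprod, hga, ?_⟩
    · exact DifferentiableAt.comp s (f := fun s : ℂ => 1 + s)
        (hd (1 + s) (by rw [Complex.add_re, Complex.one_re]; linarith)) (by fun_prop)
    · rw [h1.analyticOrderAt_eq_natCast] at hm
      rw [hga.analyticOrderAt_eq_natCast]
      obtain ⟨g, hg, hg1, he⟩ := hm
      have ht : Tendsto (fun z : ℂ => 1 + z) (𝓝 0) (𝓝 1) := by
        have : Continuous fun z : ℂ => 1 + z := by fun_prop
        simpa using this.tendsto 0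
      refine ⟨fun z => g (1 + z), ?_, by simpa using hg1, ?_⟩
      · have h2 : AnalyticAt ℂ (fun z : ℂ => 1 + z) 0 := by fun_prop
        exact AnalyticAt.comp (f := fun z : ℂ => 1 + z) (by simpa using hg) h2
      · filter_upwards [ht.eventually he] with s hs
        rw [hs, add_sub_cancel_left, sub_zero]
  · refine ⟨|C| * 2 ^ κ, κ, fun s hs => ?_⟩
    have h2 := hg (1 + s) (by rw [Complex.add_re, Complex.one_re]; linarith)
    have h3 : (1 + s).re - 1 = s.re := by rw [Complex.add_re, Complex.one_re]; ring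
    rw [h3] at h2
    have h4 : 1 + ‖1 + s‖ ≤ 2 * (1 + ‖s‖) := by
      have := norm_add_le (1 : ℂ) s
      rw [norm_one] at this
      linarith [norm_nonneg s]
    have h5 : 0 ≤ (1 + 1 / s.re) ^ κ := by positivity
    refine h2.trans ?_
    calc C * (1 + ‖1 + s‖) ^ κ * (1 + 1 / s.re) ^ κ ≤
          |C| * (2 * (1 + ‖s‖)) ^ κ * (1 + 1 / s.re) ^ κ := by
          refine mul_le_mul_of_nonneg_right ?_ h5
          exact mul_le_mul (le_abs_self _) (pow_le_pow_left₀ (by positivity) h4 κ) (by positivity)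
            (abs_nonneg _)
      _ = _ := by rw [mul_pow]; ring

/-- **The product of Birch and Swinnerton-Dyer over number fields with the Riesz smoothing.** -/
theorem result (a b : 𝓞 K) (_hΔ : 4 * a ^ 3 + 27 * b ^ 2 ≠ 0) (F : ℂ → ℂ) (hF : Moderate a b F) :
    (∀ ρ : ℝ, List.TFAE [
      NoZeros F ∧ ∃ m : ℕ, ρ = m ∧ analyticOrderAt F 1 = m,
      ∀ k : ℝ, 0 < k → ∃ M : ℝ, ∀ᶠ Y : ℝ in atTop,
        |rieszSum a b k Y - ρ * Real.log (Real.log Y)| ≤ M,
      ∃ k : ℝ, 0 < k ∧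
        Tendsto (fun Y : ℝ => rieszSum a b k Y / Real.log (Real.log Y)) atTop (𝓝 ρ)]) ∧
    (∀ ρ : ℝ, List.TFAE [
      NoZeros F ∧ ∃ m : ℕ, (m : ℝ) ≤ ρ ∧ analyticOrderAt F 1 = m,
      ∀ k : ℝ, 0 < k → ∃ M : ℝ, ∀ᶠ Y : ℝ in atTop,
        rieszSum a b k Y ≤ ρ * Real.log (Real.log Y) + M,
      ∃ k : ℝ, 0 < k ∧ ∀ ε : ℝ, 0 < ε → ∀ᶠ Y : ℝ in atTop,
        rieszSum a b k Y ≤ (ρ + ε) * Real.log (Real.log Y)]) ∧
    ((NoZeros F ∧ analyticOrderAt F 1 = rank a b) ↔ ∃ k : ℝ, 0 < k ∧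
      Tendsto (fun Y : ℝ => rieszSum a b k Y / Real.log (Real.log Y)) atTop
        (𝓝 (rank a b : ℝ))) := by
  obtain ⟨⟨m, hm⟩, hLw, C, κ, hgrow⟩ := data hF
  have H := hLw m hm
  have hnz : NoZeros F ↔ ∀ s : ℂ, 0 < s.re → F (1 + s) ≠ 0 := (zeros_shift F).symm
  have main : ∀ ρ : ℝ, List.TFAE [
      NoZeros F ∧ ∃ m : ℕ, ρ = m ∧ analyticOrderAt F 1 = m,
      ∀ k : ℝ, 0 < k → ∃ M : ℝ, ∀ᶠ Y : ℝ in atTop,
        |rieszSum a b k Y - ρ * Real.log (Real.log Y)| ≤ M,
      ∃ k : ℝ, 0 < k ∧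
        Tendsto (fun Y : ℝ => rieszSum a b k Y / Real.log (Real.log Y)) atTop (𝓝 ρ)] := by
    intro ρ
    have t := Pool.Agent.Q5.MS.riesz_law H hgrow ρ
    have h1 : (NoZeros F ∧ ∃ m : ℕ, ρ = m ∧ analyticOrderAt F 1 = m) ↔
        ((∀ s : ℂ, 0 < s.re → F (1 + s) ≠ 0) ∧ ρ = m) := by
      rw [hnz]
      refine and_congr_right fun _ => ⟨?_, fun h => ⟨m, h, hm⟩⟩
      rintro ⟨n, h2, h3⟩
      have : (n : ℕ∞) = m := by rw [← h3, hm]
      rw [h2]
      exact_mod_cast this
    have h2 : (∀ k : ℝ, 0 < k → ∃ M : ℝ, ∀ᶠ Y : ℝ in atTop,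
        |rieszSum a b k Y - ρ * Real.log (Real.log Y)| ≤ M) ↔
        ∀ k : ℝ, 0 < k → ∃ M : ℝ, ∀ᶠ Y : ℝ in atTop,
          |Sv (NN a b) (alV a b) k Y - ρ * Real.log (Real.log Y)| ≤ M := by
      refine forall_congr' fun k => imp_congr_right fun _ => exists_congr fun M =>
        eventually_congr ?_
      filter_upwards [eventually_gt_atTop 1] with Y hY
      rw [riesz_eq a b hY]
    have h3 : (∃ k : ℝ, 0 < k ∧
        Tendsto (fun Y : ℝ => rieszSum a b k Y / Real.log (Real.log Y)) atTop (𝓝 ρ)) ↔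
        ∃ k : ℝ, 0 < k ∧ Tendsto (fun Y : ℝ => Sv (NN a b) (alV a b) k Y /
          Real.log (Real.log Y)) atTop (𝓝 ρ) := by
      refine exists_congr fun k => and_congr_right fun _ => tendsto_congr' ?_
      filter_upwards [eventually_gt_atTop 1] with Y hY
      rw [riesz_eq a b hY]
    rw [h1, h2, h3]
    exact t
  refine ⟨main, fun ρ => ?_, ?_⟩
  · have t := Pool.Agent.Q5.MS.riesz_upper H hgrow ρ
    have h1 : (NoZeros F ∧ ∃ m : ℕ, (m : ℝ) ≤ ρ ∧ analyticOrderAt F 1 = m) ↔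
        ((∀ s : ℂ, 0 < s.re → F (1 + s) ≠ 0) ∧ (m : ℝ) ≤ ρ) := by
      rw [hnz]
      refine and_congr_right fun _ => ⟨?_, fun h => ⟨m, h, hm⟩⟩
      rintro ⟨n, h2, h3⟩
      have h4 : (n : ℕ∞) = m := by rw [← h3, hm]
      have h5 : n = m := by exact_mod_cast h4
      rwa [← h5]
    have h2 : (∀ k : ℝ, 0 < k → ∃ M : ℝ, ∀ᶠ Y : ℝ in atTop,
        rieszSum a b k Y ≤ ρ * Real.log (Real.log Y) + M) ↔
        ∀ k : ℝ, 0 < k → ∃ M : ℝ, ∀ᶠ Y : ℝ in atTop,
          Sv (NN a b) (alV a b) k Y ≤ ρ * Real.log (Real.log Y) + M := by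
      refine forall_congr' fun k => imp_congr_right fun _ => exists_congr fun M =>
        eventually_congr ?_
      filter_upwards [eventually_gt_atTop 1] with Y hY
      rw [riesz_eq a b hY]
    have h3 : (∃ k : ℝ, 0 < k ∧ ∀ ε : ℝ, 0 < ε → ∀ᶠ Y : ℝ in atTop,
        rieszSum a b k Y ≤ (ρ + ε) * Real.log (Real.log Y)) ↔
        ∃ k : ℝ, 0 < k ∧ ∀ ε : ℝ, 0 < ε → ∀ᶠ Y : ℝ in atTop,
          Sv (NN a b) (alV a b) k Y ≤ (ρ + ε) * Real.log (Real.log Y) := by
      refine exists_congr fun k => and_congr_right fun _ => forall_congr' fun ε =>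
        imp_congr_right fun _ => eventually_congr ?_
      filter_upwards [eventually_gt_atTop 1] with Y hY
      rw [riesz_eq a b hY]
    rw [h1, h2, h3]
    exact t
  · have t := (main (rank a b)).out 0 2
    rw [← t]
    refine and_congr_right fun _ => ⟨fun h => ⟨rank a b, rfl, h⟩, ?_⟩
    rintro ⟨n, h2, h3⟩
    have h4 : rank a b = n := by exact_mod_cast h2
    rw [h4]
    exact h3

end Pool.Agent.Results.MP_ae0bd0_nt.RieszProduct
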