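import Pool.Agent.Q45.ML.Lat

/-!
# Critical values of motivic `L`-functions as limits of smoothed Frobenius traces

Let `M` be a pure motive over `ℚ` of weight `w` with rational coefficients, `P p ∈ ℚ[X]` the polynomial
`det(1 - Frob_p X | M_ℓ^{I_p})` with reciprocal roots `α p j` (padded by zeros), `|α p j| ≤ p^{w/2}`, and `L` its
`L`-function, analytic at `0`. For `γ > π/2` let

`S_γ(T) = ∑_p ∑_{k ≥ 1} (tr(Frob_p^k)/k) e^{iγ k log p/T} / Γ(1 + k log p/T)`.

Then `exp S_γ(T) = L(M, 0) + O(1/T)`, and the rationality of `L(M, 0)/c⁺(M)`, with a given denominator, is read off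
from the distance of the numbers `D exp S_γ(T)/c⁺(M)` from the integers along any sequence `T → ∞`.
-/

set_option autoImplicit false

namespace Pool.Agent.Results.MP_b696eb_nt.FrobeniusTraceLimit

open Filter Topology Asymptotics Polynomial Pool.Agent.Q45.ML

/-- the term at `(p, k)`, `k = z.2 + 1`: `(∑_j α p j^k / k) e^{iγ k log p/T} / Γ(1 + k log p/T)` -/
noncomputable def term {n : ℕ} (α : Nat.Primes → Fin n → ℂ) (γ T : ℝ) (z : Nat.Primes × ℕ) : ℂ :=
  (∑ j, α z.1 j ^ (z.2 + 1)) / (z.2 + 1) *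
    (Complex.exp ((γ * ((z.2 + 1) * Real.log (z.1 : ℝ) / T) : ℝ) * Complex.I) /
      (Real.Gamma (1 + (z.2 + 1) * Real.log (z.1 : ℝ) / T) : ℂ))

/-- `S_γ(T)` -/
noncomputable def S {n : ℕ} (α : Nat.Primes → Fin n → ℂ) (γ T : ℝ) : ℂ := ∑' z, term α γ T z

/-- the distance of a complex number from the integers -/
noncomputable def distInt (z : ℂ) : ℝ := Metric.infDist z (Set.range fun a : ℤ => (a : ℂ))

theorem term_eq {n : ℕ} (α : Nat.Primes → Fin n → ℂ) (γ T : ℝ) (z : Nat.Primes × ℕ) :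
    term α γ T z = sterm (fun p : Nat.Primes => (p : ℝ)) α 0 γ T z := by
  unfold term sterm
  simp

theorem closed_int : IsClosed (Set.range fun a : ℤ => (a : ℂ)) :=
  Complex.isClosedEmbedding_intCast.isClosed_range

theorem aeval_prod {n : ℕ} {Q : ℚ[X]} {β : Fin n → ℂ}
    (h : Q.map (algebraMap ℚ ℂ) = ∏ j, (1 - C (β j) * X)) (x : ℂ) :
    aeval x Q = ∏ j, (1 - β j * x) := by
  rw [aeval_def, eval₂_eq_eval_map, h, eval_prod]
  simp

theorem result {n : ℕ} {w : ℤ} (P : Nat.Primes → ℚ[X]) (α : Nat.Primes → Fin n → ℂ)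
    (hP : ∀ p, (P p).map (algebraMap ℚ ℂ) = ∏ j, (1 - C (α p j) * X))
    (hα : ∀ p j, ‖α p j‖ ≤ (p : ℝ) ^ ((w : ℝ) / 2))
    (L : ℂ → ℂ) (hmer : ∀ σ : ℝ, MeromorphicAt L (σ : ℂ))
    (hL : ∀ s : ℂ, (w : ℝ) / 2 + 1 < s.re →
      HasProd (fun p : Nat.Primes => (aeval ((p : ℂ) ^ (-s)) (P p))⁻¹) (L s))
    (h0 : AnalyticAt ℂ L 0) (c : ℂ) (hc : c ≠ 0) {γ : ℝ} (hγ : Real.pi / 2 < γ) :
    (∀ T : ℝ, 0 < T → Summable fun z => ‖term α γ T z‖) ∧
    (fun T : ℝ => Complex.exp (S α γ T) - L 0) =O[atTop] (fun T : ℝ => 1 / T) ∧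
    (∀ D : ℕ, 0 < D → List.TFAE [
      ∃ a : ℤ, D * (L 0 / c) = a,
      Tendsto (fun T : ℝ => distInt (D * (Complex.exp (S α γ T) / c))) atTop (𝓝 0),
      ∃ t : ℕ → ℝ, Tendsto t atTop atTop ∧
        Tendsto (fun i => distInt (D * (Complex.exp (S α γ (t i)) / c))) atTop (𝓝 0)]) ∧
    ((∃ x : ℚ, L 0 = x * c) ↔ ∃ D : ℕ, 0 < D ∧ ∃ t : ℕ → ℝ, Tendsto t atTop atTop ∧
        Tendsto (fun i => distInt (D * (Complex.exp (S α γ (t i)) / c))) atTop (𝓝 0)) := by
  set θ : ℝ := max ((w : ℝ) / 2) 0 with hθ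
  have hθ1 : (w : ℝ) / 2 ≤ θ := le_max_left _ _
  have hθ0 : 0 ≤ θ := le_max_right _ _
  have E : Eul n (fun p : Nat.Primes => (p : ℝ)) α θ 1 := eul_q fun p j => max_bound p (hα p j) 0
  have hS : ∀ T, smooth (fun p : Nat.Primes => (p : ℝ)) α 0 γ T = S α γ T := by
    intro T
    unfold smooth S
    simp only [term_eq]
  have hval : (fun T : ℝ => Complex.exp (S α γ T) - L 0) =O[atTop] (fun T : ℝ => 1 / T) := by
    have h1 := E.value (F := L) (s₀ := 0) (by linarith) (fun x _ _ => hmer x)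
      (fun s hs => by
        refine (hL s (by linarith)).congr_fun fun p => ?_
        rw [aeval_prod (hP p), Finset.prod_inv_distrib]
        simp) (by simpa using h0) hγ
    simp only [hS, Complex.ofReal_zero] at h1
    exact h1
  have hlim : ∀ D : ℕ, Tendsto (fun T : ℝ => (D : ℂ) * (Complex.exp (S α γ T) / c)) atTop
      (𝓝 (D * (L 0 / c))) := fun D => ((tendsto_of_rate hval).div_const c).const_mul _
  have htfae : ∀ D : ℕ, 0 < D → List.TFAE [
      ∃ a : ℤ, D * (L 0 / c) = a,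
      Tendsto (fun T : ℝ => distInt (D * (Complex.exp (S α γ T) / c))) atTop (𝓝 0),
      ∃ t : ℕ → ℝ, Tendsto t atTop atTop ∧
        Tendsto (fun i => distInt (D * (Complex.exp (S α γ (t i)) / c))) atTop (𝓝 0)] := by
    intro D _
    have h1 := closed_tfae closed_int (Set.range_nonempty _) (hlim D)
    have e : (D * (L 0 / c) ∈ Set.range fun a : ℤ => (a : ℂ)) ↔ ∃ a : ℤ, D * (L 0 / c) = a := by
      simp only [Set.mem_range, eq_comm]
    rw [e] at h1
    exact h1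
  refine ⟨fun T hT => ?_, hval, htfae, ?_⟩
  · simp only [term_eq]
    exact E.sterm_summable 0 γ hT
  · constructor
    · rintro ⟨x, hx⟩
      refine ⟨x.den, x.den_pos, ?_⟩
      have hiff : (∃ a : ℤ, (x.den : ℂ) * (L 0 / c) = a) ↔ ∃ t : ℕ → ℝ, Tendsto t atTop atTop ∧
          Tendsto (fun i => distInt (x.den * (Complex.exp (S α γ (t i)) / c))) atTop (𝓝 0) :=
        (htfae x.den x.den_pos).out 0 2
      refine hiff.1 ⟨x.num, ?_⟩
      rw [hx, mul_div_cancel_right₀ _ hc]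
      have : (x.den : ℚ) * x = x.num := by
        rw [mul_comm]; exact Rat.mul_den_eq_num x
      exact_mod_cast this
    · rintro ⟨D, hD, ht⟩
      have hiff : (∃ a : ℤ, (D : ℂ) * (L 0 / c) = a) ↔ ∃ t : ℕ → ℝ, Tendsto t atTop atTop ∧
          Tendsto (fun i => distInt (D * (Complex.exp (S α γ (t i)) / c))) atTop (𝓝 0) :=
        (htfae D hD).out 0 2
      obtain ⟨a, ha⟩ := hiff.2 ht
      refine ⟨a / D, ?_⟩
      have hDc : (D : ℂ) ≠ 0 := by exact_mod_cast hD.ne'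
      push_cast
      field_simp at ha ⊢
      linear_combination ha

end Pool.Agent.Results.MP_b696eb_nt.FrobeniusTraceLimit
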