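import Pool.Agent.Q11.ES.Main

/-!
# The laws at a large scale of the twists and base changes of all abelian varieties

`K` is a number field, `A` an abelian variety over `K` and `x_v`, for the primes `v` of `K`, the classes of
`A`, elements of a space `X` of conjugacy classes, for instance of `USp(2g)`, `g = dim A`, with a metric
for which `σ`, the multiplication by `-1`, is an isometry.  For a finite extension `F` of `K` and `d ∈ F`
nonzero let `A_F^d` be the twist of `A_F` by the quadratic character of `F(√d)/F`; its class at a prime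
`w` of `F` of residue degree one over the prime `v` of `K` is `x_v` if `d` is a square modulo `w` and
`σ(x_v)` if not.

The Sato-Tate law says that the averages of a test function over the primes of norm at most `N` converge
as `N → ∞`.  We compare these averages at the same scale `N` for the `A_F^d`.  Given are finitely many
extensions `F_i` of `K` of degree at most `n` (or of rank at most `n`), any two of them linearly disjoint,
and `d_i ∈ F_i` such that `d_i d_j` is not a square in `F_i F_j` for `i ≠ j`.  At every scale `N ≥ N₀` the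
law of `A` over `F_i` is within `1/k` of the law of `A` over `K`, and the law of `A_{F_i}^{d_i}` is within
`1/k` of the symmetrised law of `A` over `K`, for all but a bounded number of the `i`.  The bound does not
depend on the number of the fields, and `N₀` does not depend on `A`: it depends on `K`, the `F_i` and
`d_i`, `k`, the number `ν` of cells of diameter at most `1/(16 k)` into which `X` can be divided, and on a
finite set of primes outside which the above formula for the classes is supposed to hold.

No L-function is used and nothing is assumed about the `x_v`.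
-/

set_option autoImplicit false

namespace Pool.Agent.Results.MP_c481b3_nt.EveryScale

open NumberField IsDedekindDomain Filter Topology
open scoped TensorProduct

/-- The average of `φ` over the primes of `F` of norm at most `N`. -/
noncomputable def avg (F : Type) [Field F] [NumberField F] (φ : HeightOneSpectrum (𝓞 F) → ℝ)
    (N : ℕ) : ℝ :=
  (∑ᶠ w : {w : HeightOneSpectrum (𝓞 F) // Ideal.absNorm w.asIdeal ≤ N}, φ w.1) /
    (Nat.card {w : HeightOneSpectrum (𝓞 F) // Ideal.absNorm w.asIdeal ≤ N} : ℝ)

/-- The law of the classes `c w` over `F` at the scale `N` is at distance less than `1/k` from the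
functional `L`, in the dual bounded Lipschitz distance: for all `1`-Lipschitz functions `f` with values in
`[-1, 1]` the average of the `f (c w)` over the primes `w` of norm at most `N` differs from `L f` by less
than `1/k`. -/
def LawNear {X : Type} [MetricSpace X] {F : Type} [Field F] [NumberField F]
    (c : HeightOneSpectrum (𝓞 F) → X) (N k : ℕ) (L : (X → ℝ) → ℝ) : Prop :=
  ∀ f : X → ℝ, LipschitzWith 1 f → (∀ y, |f y| ≤ 1) → |avg F (fun w => f (c w)) N - L f| < 1 / k

/-- `X` is the union of `ν` sets of diameter at most `1/(16 k)`. -/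
def Cells (X : Type) [MetricSpace X] (ν k : ℕ) : Prop :=
  ∃ κ : X → Fin ν, ∀ y z, κ y = κ z → dist y z ≤ 1 / (16 * k)

/-- The number of fields whose product is `F ⊗_K F`, the rank of the action of the absolute Galois group
of `K` on the embeddings of `F` over `K`.  It is at most `[F : K]`. -/
noncomputable def rank (K F : Type) [Field K] [Field F] [Algebra K F] : ℕ :=
  Nat.card (MaximalSpectrum (F ⊗[K] F))

section

variable {K : Type} [Field K] [NumberField K] {F : Type} [Field F] [NumberField F] [Algebra K F]

/-- The `c w` are the classes of the base change to `F`: for all primes `w ∉ Z` of `F` of residue degree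
one over the prime `v` of `K` below `w`, `c w = x v`. -/
def BaseChange {X : Type} (Z : Finset (HeightOneSpectrum (𝓞 F)))
    (x : HeightOneSpectrum (𝓞 K) → X) (c : HeightOneSpectrum (𝓞 F) → X) : Prop :=
  ∀ w, w ∉ Z → ∀ v : HeightOneSpectrum (𝓞 K),
    w.asIdeal.comap (algebraMap (𝓞 K) (𝓞 F)) = v.asIdeal →
    Ideal.absNorm w.asIdeal = Ideal.absNorm v.asIdeal → c w = x v

/-- The `c w` are the classes of the twist by `d` of the base change to `F`: for all primes `w ∉ Z` of `F`
of residue degree one over the prime `v` of `K` below `w`, `c w` is `x v` if `d` is a square modulo `w`,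
and `σ (x v)` if not. -/
def TwistedBaseChange {X : Type} (Z : Finset (HeightOneSpectrum (𝓞 F))) (d : 𝓞 F) (σ : X → X)
    (x : HeightOneSpectrum (𝓞 K) → X) (c : HeightOneSpectrum (𝓞 F) → X) : Prop :=
  ∀ w, w ∉ Z → ∀ v : HeightOneSpectrum (𝓞 K),
    w.asIdeal.comap (algebraMap (𝓞 K) (𝓞 F)) = v.asIdeal →
    Ideal.absNorm w.asIdeal = Ideal.absNorm v.asIdeal →
    (IsSquare (Ideal.Quotient.mk w.asIdeal d) → c w = x v) ∧
    (¬ IsSquare (Ideal.Quotient.mk w.asIdeal d) → c w = σ (x v))

end

section

variable {K : Type} [Field K] [NumberField K] {ι : Type} (F : ι → Type) [∀ i, Field (F i)]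
  [∀ i, NumberField (F i)] [∀ i, Algebra K (F i)]

/-- At all large scales `N` and for all classes `x_v` in all spaces `X` with `ν` cells, the law of the
base change to `F_i` is within `1/k` of the law over `K` for all but at most `64 (n + 1) ν k²` of the
`i`. -/
def BaseChangesNear (Z : ∀ i, Finset (HeightOneSpectrum (𝓞 (F i)))) (n ν k : ℕ) : Prop :=
  ∃ N₀ : ℕ, ∀ N ≥ N₀, ∀ (X : Type) [MetricSpace X], Cells X ν k →
    ∀ (x : HeightOneSpectrum (𝓞 K) → X) (c : ∀ i, HeightOneSpectrum (𝓞 (F i)) → X),
    (∀ i, BaseChange (Z i) x (c i)) →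
      {i | ¬ LawNear (c i) N k fun f => avg K (fun v => f (x v)) N}.ncard ≤
        64 * (n + 1) * ν * k ^ 2

/-- At all large scales `N` and for all classes `x_v` in all spaces `X` with `ν` cells and an isometric
involution `σ`, the law of the twist by `d_i` of the base change to `F_i` is within `1/k` of the
symmetrised law over `K` for all but at most `128 (n + 1) ν k²` of the `i`. -/
def TwistsNear (Z : ∀ i, Finset (HeightOneSpectrum (𝓞 (F i)))) (d : ∀ i, 𝓞 (F i)) (n ν k : ℕ) :
    Prop :=
  ∃ N₀ : ℕ, ∀ N ≥ N₀, ∀ (X : Type) [MetricSpace X], Cells X ν k → ∀ σ : X → X,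
    LipschitzWith 1 σ → (∀ y, σ (σ y) = y) →
    ∀ (x : HeightOneSpectrum (𝓞 K) → X) (c : ∀ i, HeightOneSpectrum (𝓞 (F i)) → X),
    (∀ i, TwistedBaseChange (Z i) (d i) σ x (c i)) →
      {i | ¬ LawNear (c i) N k fun f => avg K (fun v => (f (x v) + f (σ (x v))) / 2) N}.ncard ≤
        128 * (n + 1) * ν * k ^ 2

end

/-- **The laws at a large scale of the base changes and their twists.**  Let `F_i`, `i ∈ ι` finite, be
extensions of the number field `K` of rank at most `n`, for instance of degree at most `n`, such that
`F_i ⊗ F_j` is a field for `i ≠ j`.  At all large scales the laws of the base changes to the `F_i` are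
within `1/k` of the law over `K`, with at most `64 (n + 1) ν k²` exceptions; and if `d_i ⊗ d_j` is not a
square in `F_i ⊗ F_j` for `i ≠ j`, then the laws of the twists by `d_i` of the base changes are within
`1/k` of the symmetrised law over `K`, with at most `128 (n + 1) ν k²` exceptions. -/
theorem result (K : Type) [Field K] [NumberField K] (ι : Type) [Finite ι] (F : ι → Type)
    [∀ i, Field (F i)] [∀ i, NumberField (F i)] [∀ i, Algebra K (F i)] (n : ℕ)
    (hn : ∀ i, rank K (F i) ≤ n) (hF : ∀ i j, i ≠ j → IsField (F i ⊗[K] F j))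
    (Z : ∀ i, Finset (HeightOneSpectrum (𝓞 (F i)))) (ν k : ℕ) (hk : 1 ≤ k) :
    BaseChangesNear (K := K) F Z n ν k ∧
    ∀ d : ∀ i, 𝓞 (F i), (∀ i, d i ≠ 0) →
      (∀ i j, i ≠ j → ¬ IsSquare ((d i : F i) ⊗ₜ[K] (d j : F j))) →
      TwistsNear (K := K) F Z d n ν k := by
  classical
  have _ := Fintype.ofFinite ι
  constructor
  · obtain ⟨N₀, hN₀⟩ := eventually_atTop.1 (Pool.Agent.Q11.ES.main_base F n hn hF Z ν k hk)
    refine ⟨N₀, fun N hN X _ hX x c hc => ?_⟩
    obtain ⟨κ, hκ⟩ := hX
    have h1 := hN₀ N hN X κ hκ x c (fun i w hw v hv hn => ⟨fun _ => hc i w hw v hv hn,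
      fun hs => absurd (by rw [map_one]; exact IsSquare.one) hs⟩)
    have h2 : {i | ¬ LawNear (c i) N k fun f => avg K (fun v => f (x v)) N}.ncard ≤
        (Finset.univ.filter fun i : ι => ∃ f : X → ℝ, (LipschitzWith 1 f ∧ ∀ y, |f y| ≤ 1) ∧
        1 / (k : ℝ) ≤ |Pool.Agent.W529.ST.mean (F i) (fun w => f (c i w)) N -
          Pool.Agent.W529.ST.mean K (fun v => f (x v)) N|).card := by
      rw [← Set.ncard_coe_finset]
      refine Set.ncard_le_ncard (fun i hi => ?_) (Finset.finite_toSet _)
      rw [Set.mem_ofPred_eq] at hi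
      unfold LawNear at hi
      push Not at hi
      obtain ⟨f, hf1, hf2, hf3⟩ := hi
      exact Finset.mem_coe.2 (Finset.mem_filter.2 ⟨Finset.mem_univ _, f, ⟨hf1, hf2⟩, hf3⟩)
    refine h2.trans ?_
    exact_mod_cast h1
  · intro d hd hsq
    obtain ⟨N₀, hN₀⟩ := eventually_atTop.1
      (Pool.Agent.Q11.ES.main_twist F n hn hF d hd hsq Z ν k hk)
    refine ⟨N₀, fun N hN X _ hX σ hσ1 hσ2 x c hc => ?_⟩
    obtain ⟨κ, hκ⟩ := hX
    have h1 := hN₀ N hN X κ hκ σ hσ1 hσ2 x c hc
    have h2 : {i | ¬ LawNear (c i) N k
        fun f => avg K (fun v => (f (x v) + f (σ (x v))) / 2) N}.ncard ≤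
        (Finset.univ.filter fun i : ι => ∃ f : X → ℝ, (LipschitzWith 1 f ∧ ∀ y, |f y| ≤ 1) ∧
        1 / (k : ℝ) ≤ |Pool.Agent.W529.ST.mean (F i) (fun w => f (c i w)) N -
          Pool.Agent.W529.ST.mean K (fun v => (f (x v) + f (σ (x v))) / 2) N|).card := by
      rw [← Set.ncard_coe_finset]
      refine Set.ncard_le_ncard (fun i hi => ?_) (Finset.finite_toSet _)
      rw [Set.mem_ofPred_eq] at hi
      unfold LawNear at hi
      push Not at hi
      obtain ⟨f, hf1, hf2, hf3⟩ := hi
      exact Finset.mem_coe.2 (Finset.mem_filter.2 ⟨Finset.mem_univ _, f, ⟨hf1, hf2⟩, hf3⟩)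
    refine h2.trans ?_
    exact_mod_cast h1

end Pool.Agent.Results.MP_c481b3_nt.EveryScale
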