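import Pool.Agent.Q5.VA.Abel
import Pool.Agent.Results.MP_ec4e4b_nt.MeanProductOrder

/-!
# The order of vanishing of the `L`-function of `h^{2m-1}(X)(m)` and the smoothed Euler product at the centre

Let `X` be a smooth projective variety of dimension `d` over a number field `K`, given by homogeneous
polynomials over `𝓞 K`, and `1 ≤ m`, `2 m - 1 ≤ 2 d`. The motive `M = h^{2m-1}(X)(m)` is polarized, and
`L(s, M) = L(H^{2m-1}(X), s + m)`. Let `S` be a finite set of primes such that for `v ∉ S` the eigenvalues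
`α_{v,1}, …, α_{v,N}` of the Frobenius on `H^{2m-1}(X)` are given by the numbers of points of `X` over the
finite extensions of the residue field (by the theorem of Deligne this is so if `S` contains the primes of
bad reduction). Let `F` be a continuation of `∏_{v ∉ S} ∏_j (1 - α_{v,j} q_v^{-s})⁻¹` to the half plane `Re s > m`,
analytic there and at `s = m`, with `|F(s)| ≤ C (1 + |s|)^κ (1 + 1/(Re s - m))^κ` for `Re s > m` (nothing is
assumed on `F` to the left of the line `Re s = m`, except near the point `m`). For `k > 0` let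

`S_k(Y) = ∑_{v ∉ S, q_v ≤ Y} (1 - log q_v / log Y)^k log |∏_j (1 - α_{v,j} q_v^{-m})|`,

the logarithm of the reciprocal Euler product at the centre with the Riesz smoothing of order `k`; for `k → 0` it is
the sharp cut-off. Then for every real `ρ`:

* `ord_{s=m} F = ρ` and `F` has no zeros with `Re s > m`, if and only if `S_k(Y)/log log Y → ρ` for ONE `k > 0`, if
  and only if `S_k(Y) = ρ log log Y + O(1)` for ALL `k > 0`.
* `ord_{s=m} F ≤ ρ` and `F` has no zeros with `Re s > m`, if and only if `S_k(Y) ≤ (ρ + o(1)) log log Y` for ONE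
  `k > 0`, if and only if `S_k(Y) ≤ ρ log log Y + O(1)` for ALL `k > 0`.

With `ρ = dim H^1_f(K, M_p) - dim H^0(K, M_p)`: the formula of Bloch and Kato for the order of vanishing of
`L(s, M)` at `s = 0`, together with the Riemann hypothesis for `M`, is equivalent to the expected growth of the
smoothed product of the numbers given by the numbers of points of `X` modulo the primes; and the ONE-SIDED bound is
already equivalent to the Riemann hypothesis together with the inequality `ord_{s=0} L(s, M) ≤ ρ`. (The Euler factors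
at the primes of `S` do not change the order at `m`, nor the zeros with `Re s > m`, if the weights of the invariants
of inertia are at most `2 m - 1`.)

For abelian varieties and `m = 1` this is `RieszProductAbelian` of problem `MP_1d384c_nt`. Compared with
`MeanProductOrder` (this problem): pointwise statements instead of means over the cut-off, one-sided bounds, no
continuation beyond the line `Re s = m`. The proof is in `Pool.Agent.Q5.MS` and `Pool.Agent.Q5.VA`, based on
`Pool.Agent.TH270.RS` (weighted sums over prime powers of a system of primes, helper270) and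
`Pool.Agent.TH942.ES` (helper942).
-/

set_option autoImplicit false

namespace Pool.Agent.Results.MP_ec4e4b_nt.SmoothedProduct

open Filter Topology Set Complex NumberField IsDedekindDomain
open Pool.Agent.Results.MP_ec4e4b_nt.MeanProductOrder (norm IsLocal upTo)

variable {K : Type} [Field K] [NumberField K] {N : ℕ}

/-- `F` is a continuation of the incomplete `L`-function `∏_{v ∉ S} ∏_j (1 - α_{v,j} q_v^{-s})⁻¹` (`Re s > m + 1/2`)
to the half plane `Re s > m`, analytic there and at `m`, with `|F(s)| ≤ C (1 + |s|)^κ (1 + 1/(Re s - m))^κ` for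
`Re s > m`. -/
def Moderate (m : ℕ) (S : Finset (HeightOneSpectrum (𝓞 K)))
    (α : HeightOneSpectrum (𝓞 K) → Fin N → ℂ) (F : ℂ → ℂ) : Prop :=
  (∀ s : ℂ, (m : ℝ) < s.re → DifferentiableAt ℂ F s) ∧ AnalyticAt ℂ F m ∧
  (∃ (C : ℝ) (κ : ℕ), ∀ s : ℂ, (m : ℝ) < s.re →
    ‖F s‖ ≤ C * (1 + ‖s‖) ^ κ * (1 + 1 / (s.re - m)) ^ κ) ∧
  ∀ s : ℂ, (m : ℝ) + 1 / 2 < s.re →
    HasProd (fun v : {v : HeightOneSpectrum (𝓞 K) // v ∉ S} =>
      (∏ j, (1 - α v.1 j * (norm v.1 : ℂ) ^ (-s)))⁻¹) (F s)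

/-- `S_k(Y) = ∑_{v ∉ S, q_v ≤ Y} (1 - log q_v / log Y)^k log |∏_j (1 - α_{v,j} q_v^{-m})|`, a finite sum. -/
noncomputable def rieszSum (m : ℕ) (S : Finset (HeightOneSpectrum (𝓞 K)))
    (α : HeightOneSpectrum (𝓞 K) → Fin N → ℂ) (k Y : ℝ) : ℝ :=
  ∑ᶠ v ∈ upTo S Y, (1 - Real.log (norm v) / Real.log Y) ^ k *
    Real.log ‖∏ j, (1 - α v j * (norm v : ℂ) ^ (-(m : ℂ)))‖

/-- `F` has no zeros with `Re s > m`. -/
def NoZeros (m : ℕ) (F : ℂ → ℂ) : Prop := ∀ s : ℂ, (m : ℝ) < s.re → F s ≠ 0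

/-! ### translation -/

open Pool.Agent.Results.MP_ec4e4b_nt.MeanProductOrder (frob centre cpow_m)
open Pool.Agent.TH942.ES (cv zv xv Sys)
open Pool.Agent.TH942.RZ (rzw)
open Pool.Agent.H921R2.TatePole (nm two_le_nm)
open Pool.Agent.Q5.MS (Sv)
open Pool.Agent.Q5.VA (NS aD Frob)

variable {n : ℕ} {X : Set (MvPolynomial (Fin n) (𝓞 K))} {d m : ℕ}
  {S : Finset (HeightOneSpectrum (𝓞 K))} {α : HeightOneSpectrum (𝓞 K) → Fin N → ℂ} {F : ℂ → ℂ}

theorem cv_eq (hm : 1 ≤ m) (h : IsLocal X d (2 * m - 1) S α)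
    (v : {v : HeightOneSpectrum (𝓞 K) // v ∉ S}) : cv (NS S) (aD (2 * m - 1) S α) v =
      Real.log ‖∏ j, (1 - α v.1 j * (norm v.1 : ℂ) ^ (-(m : ℂ)))‖ := by
  rw [(frob h).cv_eq v, ← centre hm, cpow_m]

theorem riesz_eq (hm : 1 ≤ m) (hd : 2 * m - 1 ≤ 2 * d) (h : IsLocal X d (2 * m - 1) S α)
    {k Y : ℝ} (hY : 1 < Y) : rieszSum m S α k Y = Sv (NS S) (aD (2 * m - 1) S α) k Y := by
  classical
  have E := (frob h).sys hd
  have hfin : (upTo S Y).Finite := by
    have h1 := (E.fin_le Y).image Subtype.val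
    refine h1.subset fun v hv => ?_
    exact ⟨⟨v, hv.1⟩, hv.2, rfl⟩
  have h2 : rieszSum m S α k Y = ∑ v ∈ hfin.toFinset,
      (1 - Real.log (norm v) / Real.log Y) ^ k *
        Real.log ‖∏ j, (1 - α v j * (norm v : ℂ) ^ (-(m : ℂ)))‖ :=
    finsum_mem_eq_finite_toFinset_sum _ hfin
  have h3 : Sv (NS S) (aD (2 * m - 1) S α) k Y = ∑ v ∈ (E.fin_le Y).toFinset,
      rzw k (Real.log (NS S v) / Real.log Y) * cv (NS S) (aD (2 * m - 1) S α) v :=
    finsum_mem_eq_finite_toFinset_sum (fun v => rzw k (Real.log (NS S v) / Real.log Y) *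
      cv (NS S) (aD (2 * m - 1) S α) v) (E.fin_le Y)
  rw [h2, h3]
  refine Finset.sum_bij' (i := fun v hv => ⟨v, ((Set.Finite.mem_toFinset _).1 hv).1⟩)
    (j := fun v _ => v.1) ?_ ?_ ?_ ?_ ?_
  · intro v hv
    rw [Set.Finite.mem_toFinset] at hv ⊢
    exact hv.2
  · intro v hv
    rw [Set.Finite.mem_toFinset] at hv ⊢
    exact ⟨v.2, hv⟩
  · intro v hv
    rfl
  · intro v hv
    rfl
  · intro v hv
    have h4 := cv_eq hm h ⟨v, ((Set.Finite.mem_toFinset _).1 hv).1⟩
    have h5 : (norm v : ℝ) ≤ Y := ((Set.Finite.mem_toFinset _).1 hv).2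
    have h6 : (2 : ℝ) ≤ norm v := by exact_mod_cast two_le_nm v
    have h7 : Real.log (norm v) / Real.log Y ≤ 1 := by
      rw [div_le_one (Real.log_pos hY)]
      exact Real.log_le_log (by linarith) h5
    have h8 : rzw k (Real.log (norm v) / Real.log Y) =
        (1 - Real.log (norm v) / Real.log Y) ^ k := by
      unfold rzw
      rw [max_eq_left (by linarith)]
    rw [← h8]
    exact congrArg (fun x => rzw k (Real.log (norm v) / Real.log Y) * x) h4.symm

theorem moderate (hm : 1 ≤ m) (hF : Moderate m S α F) :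
    Q5.VA.ModerateAt (m : ℝ) (NS S) (aD (2 * m - 1) S α) F := by
  have hmc : ((m : ℝ) : ℂ) = (m : ℂ) := by push_cast; rfl
  obtain ⟨h1, h2, h3, h4⟩ := hF
  unfold Q5.VA.ModerateAt
  rw [hmc]
  refine ⟨h1, h2, h3, fun s hs => (h4 s hs).congr_fun fun v => ?_⟩
  have h5 := Q5.VA.factorD (i := 2 * m - 1) (S := S) (α := α) v s
  rw [← centre hm, hmc] at h5
  exact h5

/-- **The smoothed Euler product at the centre.** -/
theorem result (K : Type) [Field K] [NumberField K] (n : ℕ)
    (X : Set (MvPolynomial (Fin n) (𝓞 K))) (d m N : ℕ) (hm : 1 ≤ m) (hd : 2 * m - 1 ≤ 2 * d)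
    (S : Finset (HeightOneSpectrum (𝓞 K))) (α : HeightOneSpectrum (𝓞 K) → Fin N → ℂ)
    (hα : IsLocal X d (2 * m - 1) S α) (F : ℂ → ℂ) (hF : Moderate m S α F) :
    (∀ ρ : ℝ, List.TFAE [
      NoZeros m F ∧ ∃ e : ℕ, ρ = e ∧ analyticOrderAt F m = e,
      ∀ k : ℝ, 0 < k → ∃ M : ℝ, ∀ᶠ Y : ℝ in atTop,
        |rieszSum m S α k Y - ρ * Real.log (Real.log Y)| ≤ M,
      ∃ k : ℝ, 0 < k ∧
        Tendsto (fun Y : ℝ => rieszSum m S α k Y / Real.log (Real.log Y)) atTop (𝓝 ρ)]) ∧
    (∀ ρ : ℝ, List.TFAE [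
      NoZeros m F ∧ ∃ e : ℕ, (e : ℝ) ≤ ρ ∧ analyticOrderAt F m = e,
      ∀ k : ℝ, 0 < k → ∃ M : ℝ, ∀ᶠ Y : ℝ in atTop,
        rieszSum m S α k Y ≤ ρ * Real.log (Real.log Y) + M,
      ∃ k : ℝ, 0 < k ∧ ∀ ε : ℝ, 0 < ε → ∀ᶠ Y : ℝ in atTop,
        rieszSum m S α k Y ≤ (ρ + ε) * Real.log (Real.log Y)]) := by
  have hmc : ((m : ℝ) : ℂ) = (m : ℂ) := by push_cast; rfl
  have E := (frob hα).sys hd
  have t := Q5.VA.riesz_all E ((frob hα).real hd) (moderate hm hF)
    (T := fun k Y => rieszSum m S α k Y) fun k Y hY => riesz_eq hm hd hα hY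
  rw [hmc] at t
  exact t

end Pool.Agent.Results.MP_ec4e4b_nt.SmoothedProduct
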